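import Mathlib

/-! LibPE82: a class of polynomial (linear) expansion with unbounded nonrepetitive chromatic number
(MP_b63a31, frozen S10962). Definitions.

The gadget `Q 0` is an edge between two terminals. The gadget `Q (j+1)` has terminals `s'`, `t'` and
layers `A`, `B` of `n` vertices; `s'` is adjacent to all of `A`, `t'` to all of `B`, and every pair in
`A x B` is joined by its own copy of `Q j`. -/

set_option autoImplicit false

namespace LibPE82

/-- List form of a nonrepetitive colouring. -/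
def NR {V K : Type} (G : SimpleGraph V) (c : V → K) : Prop :=
  ∀ l₁ l₂ : List V, (l₁ ++ l₂).IsChain G.Adj → (l₁ ++ l₂).Nodup → l₁ ≠ [] →
    l₁.map c ≠ l₂.map c

/-- The pairs `A x B`. -/
abbrev E (n : ℕ) := Fin n × Fin n

/-- The interior vertices of the new gadget: `A`, `B`, and the interiors of the copies. -/
abbrev J (n : ℕ) (I : Type) := (Fin n ⊕ Fin n) ⊕ (E n × I)

/-- Embedding of the copy `e`; `inl false`, `inl true` are the terminals of the copy. -/
def φ {n : ℕ} {I : Type} (e : E n) : Bool ⊕ I → Bool ⊕ J n I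
  | .inl false => .inr (.inl (.inl e.1))
  | .inl true => .inr (.inl (.inr e.2))
  | .inr i => .inr (.inr (e, i))

/-- The edges at the new terminals. -/
inductive TE {n : ℕ} {I : Type} : Bool ⊕ J n I → Bool ⊕ J n I → Prop
  | s (a : Fin n) : TE (.inl false) (.inr (.inl (.inl a)))
  | t (b : Fin n) : TE (.inl true) (.inr (.inl (.inr b)))

theorem φ_inj {n : ℕ} {I : Type} (e : E n) : Function.Injective (φ (I := I) e) := by
  rintro ((_ | _) | a) ((_ | _) | b) h <;> simp_all [φ]

/-- The new gadget. -/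
def sub {I : Type} (n : ℕ) (G : SimpleGraph (Bool ⊕ I)) : SimpleGraph (Bool ⊕ J n I) where
  Adj x y := (∃ (e : E n) (u v : Bool ⊕ I), G.Adj u v ∧ φ e u = x ∧ φ e v = y) ∨ TE x y ∨ TE y x
  symm := ⟨by
    rintro x y (⟨e, u, v, h, hx, hy⟩ | h | h)
    · exact Or.inl ⟨e, v, u, h.symm, hy, hx⟩
    · exact Or.inr (Or.inr h)
    · exact Or.inr (Or.inl h)⟩
  loopless := ⟨by
    rintro x (⟨e, u, v, h, hx, hy⟩ | h | h)
    · exact h.ne (φ_inj e (hx.trans hy.symm))
    · cases h
    · cases h⟩

/-- Reachability by a walk of length at most `s` all of whose vertices satisfy `P`. -/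
def Rch {V : Type} (G : SimpleGraph V) (P : V → Prop) : ℕ → V → V → Prop
  | 0, v, u => v = u ∧ P v
  | s + 1, v, u => Rch G P s v u ∨ (P v ∧ ∃ w, G.Adj v w ∧ Rch G P s w u)

/-- Level of the interior vertices of the new gadget, `A` and `B` having level `j`. -/
def lev' {n : ℕ} {I : Type} (lev : I → ℕ) (j : ℕ) : J n I → ℕ
  | .inl _ => j
  | .inr p => lev p.2

/-- Interior vertices of level at most `m`. -/
def Low {I : Type} (lev : I → ℕ) (m : ℕ) (z : Bool ⊕ I) : Prop := ∃ w, z = .inr w ∧ lev w ≤ m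

/-- Weakly reachable interior vertices. -/
def WR {I : Type} (G : SimpleGraph (Bool ⊕ I)) (lev : I → ℕ) (s : ℕ) (v : I) : Set I :=
  {u | Rch G (Low lev (lev u)) s (.inr v) (.inr u)}

/-- Contribution of the short copies. -/
def CC (s j : ℕ) : ℕ := ∑ m ∈ Finset.range j, if 2 * m + 1 ≤ s then 4 * (m + 1) else 0

/-- The inductive bound on weakly reachable vertices. -/
def WRB {I : Type} (G : SimpleGraph (Bool ⊕ I)) (lev : I → ℕ) (s j : ℕ) : Prop :=
  ∀ v : I, ∃ d, 1 ≤ d ∧ (∀ b, ¬ Rch G (fun _ => True) (d - 1) (.inr v) (.inl b)) ∧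
    (WR G lev s v).ncard ≤ CC s j + 2 * min d (s + 1)

/-- One-Lipschitz functions. -/
def Lip {V : Type} (G : SimpleGraph V) (f : V → ℕ) : Prop := ∀ u v, G.Adj u v → f u ≤ f v + 1

/-- Position function. -/
def Pos {I : Type} (G : SimpleGraph (Bool ⊕ I)) (L : ℕ) : Prop :=
  ∃ ψ : Bool ⊕ I → ℕ, ψ (.inl false) = 0 ∧ ψ (.inl true) = L ∧ Lip G ψ

/-- `R` is a set of terminal-to-terminal paths with `len` edges, given by their interiors. -/
structure Routes {I : Type} (G : SimpleGraph (Bool ⊕ I)) (R : Finset (List I)) (len : ℕ) :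
    Prop where
  chain : ∀ l ∈ R, (Sum.inl false :: (l.map Sum.inr ++ [Sum.inl true])).IsChain G.Adj
  nodup : ∀ l ∈ R, l.Nodup
  length : ∀ l ∈ R, l.length + 1 = len

open Classical in
/-- Every nonrepetitive colouring shows at least `M` colour words on the routes. -/
def Cnt {I : Type} (G : SimpleGraph (Bool ⊕ I)) (R : Finset (List I)) (M : ℕ) : Prop :=
  ∀ (K : Type) (c : Bool ⊕ I → K), NR G c →
    M ≤ (R.image (fun l => l.map (fun i => c (Sum.inr i)))).card

/-- Copy of an interior list in the copy `e`. -/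
def cp {n : ℕ} {I : Type} (e : E n) (l : List I) : List (J n I) := l.map (fun i => .inr (e, i))

def vA {n : ℕ} {I : Type} (a : Fin n) : J n I := .inl (.inl a)
def vB {n : ℕ} {I : Type} (b : Fin n) : J n I := .inl (.inr b)

def mk {n : ℕ} {I : Type} (a b : Fin n) (l : List I) : List (J n I) :=
  vA a :: (cp (a, b) l ++ [vB b])

open Classical in
/-- The new routes. -/
noncomputable def newR {I : Type} (n : ℕ) (R : Finset (List I)) : Finset (List (J n I)) :=
  ((Finset.univ : Finset (Fin n × Fin n)) ×ˢ R).image (fun x => mk x.1.1 x.1.2 x.2)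

end LibPE82
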