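import Pool.Agent.LibPE82.Defs

set_option autoImplicit false

/-!
# Linear expansion of the gadget

`lev v = i` if `v` lies in one of the two layers of a copy of `Q (i + 1)`; `W v` is the set of the
layers and terminals of the copy of `Q (i + 1)` around `v`. A branch set with highest level `i` has
at most `4 i + 6` neighbours of the same or a higher level, and at most `2` if `2 r < i`.
-/

namespace LibPE82

/-- Certificate for the level `i`. -/
structure Lvl {V : Type} (G : SimpleGraph V) (lev : V → ℕ) (i N L : ℕ) (W : V → Finset V) :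
    Prop where
  card : ∀ v, lev v ≤ i → (W v).card ≤ N
  same : ∀ v u, lev v ≤ i → G.Adj v u → lev u ≤ i → W u = W v
  up : ∀ v u, lev v ≤ i → G.Adj v u → i < lev u → u ∈ W v
  self : ∀ v, lev v = i → v ∈ W v
  two : ∀ v, lev v ≤ i → ∃ a b, ∀ u ∈ W v, i < lev u → u = a ∨ u = b
  dist : ∀ y, lev y = i → ∃ ψ : V → ℕ, ψ y = 0 ∧ (∀ y', lev y' = i → y' ≠ y → L ≤ ψ y') ∧
    ∀ u v, lev u ≤ i → lev v ≤ i → G.Adj u v → ψ u ≤ ψ v + 1

/-- The hierarchy of levels below `m`; the terminals have level `m`. -/
def Hier {I : Type} (G : SimpleGraph (Bool ⊕ I)) (m : ℕ) : Prop :=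
  ∃ lev : Bool ⊕ I → ℕ, (∀ b, lev (.inl b) = m) ∧ (∀ i, lev (.inr i) < m) ∧
    ∀ i < m, ∃ W, Lvl G lev i (4 * i + 6) (2 * i + 1) W

/-- Shallow minors have few edges: the hypothesis of the frozen statement with a bound `N r`. -/
def Exp {V : Type} (G : SimpleGraph V) (r N : ℕ) : Prop :=
  ∀ (n : ℕ) (H : SimpleGraph (Fin n)) (B : Fin n → Set V) (x : Fin n → V),
    (∀ i j, i ≠ j → Disjoint (B i) (B j)) →
    (∀ i, x i ∈ B i ∧ ∀ y ∈ B i, ∃ p : G.Walk (x i) y,
      p.length ≤ r ∧ ∀ z ∈ p.support, z ∈ B i) →
    (∀ i j, H.Adj i j → ∃ a ∈ B i, ∃ b ∈ B j, G.Adj a b) →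
    H.edgeSet.ncard ≤ N * n

lemma φ_eq_inr {n : ℕ} {I : Type} {e e' : E n} {i : I} {u : Bool ⊕ I}
    (h : φ e' u = .inr (.inr (e, i))) : e' = e ∧ u = .inr i := by
  rcases u with (_ | _) | a <;> simp_all [φ]

lemma hier_zero : Hier (⊤ : SimpleGraph (Bool ⊕ Empty)) 0 :=
  ⟨fun _ => 0, fun _ => rfl, fun i => i.elim, fun i hi => absurd hi (by omega)⟩

lemma pos_zero : Pos (⊤ : SimpleGraph (Bool ⊕ Empty)) 1 := by
  let ψ : Bool ⊕ Empty → ℕ := fun x => match x with
    | .inl false => 0
    | .inl true => 1
  refine ⟨ψ, rfl, rfl, ?_⟩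
  rintro ((_ | _) | u) ((_ | _) | v) _ <;> first | exact u.elim | exact v.elim | simp [ψ]

lemma pos_sub {I : Type} (n : ℕ) {G : SimpleGraph (Bool ⊕ I)} {L : ℕ} (h : Pos G L) :
    Pos (sub n G) (L + 2) := by
  obtain ⟨ψ, h0, h1, h2⟩ := h
  let f : Bool ⊕ J n I → ℕ := fun x => match x with
    | .inl false => 0
    | .inl true => L + 2
    | .inr (.inl (.inl _)) => 1
    | .inr (.inl (.inr _)) => L + 1
    | .inr (.inr p) => 1 + ψ (.inr p.2)
  have hφ : ∀ e u, f (φ e u) = 1 + ψ u := by
    intro e u
    rcases u with (_ | _) | i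
    · rw [h0]; rfl
    · rw [h1]
      show L + 1 = 1 + L
      omega
    · rfl
  refine ⟨f, rfl, rfl, ?_⟩
  rintro u v (⟨e, a, b, hab, rfl, rfl⟩ | (a | b) | (a | b))
  · rw [hφ, hφ]
    have := h2 a b hab
    omega
  · show 0 ≤ 1 + 1
    omega
  · show L + 2 ≤ L + 1 + 1
    omega
  · show 1 ≤ 0 + 1
    omega
  · show L + 1 ≤ L + 2 + 1
    omega

open Classical in
lemma hier_sub {I : Type} {G : SimpleGraph (Bool ⊕ I)} {m n : ℕ} (hn : n ≤ 2 * (m + 1))
    (h : Hier G m) (hp : Pos G (2 * m + 1)) : Hier (sub n G) (m + 1) := by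
  obtain ⟨lev, hT, hI, hL⟩ := h
  let lev' : Bool ⊕ J n I → ℕ := fun x => match x with
    | .inl _ => m + 1
    | .inr (.inl _) => m
    | .inr (.inr p) => lev (.inr p.2)
  have hφ : ∀ e u, lev' (φ e u) = lev u := by
    intro e u
    rcases u with (_ | _) | i
    · rw [hT]; rfl
    · rw [hT]; rfl
    · rfl
  refine ⟨lev', fun _ => rfl, ?_, ?_⟩
  · rintro (w | ⟨e, j⟩)
    · exact Nat.lt_succ_self m
    · exact (hI j).trans (Nat.lt_succ_self m)
  intro i hi
  rcases Nat.lt_or_ge i m with him | him
  · -- old levels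
    obtain ⟨W, hW⟩ := hL i him
    have low : ∀ x, lev' x ≤ i → ∃ e j, x = Sum.inr (Sum.inr (e, j)) := by
      rintro (b | (w | ⟨e, j⟩)) hx
      · have : m + 1 ≤ i := hx
        omega
      · have : m ≤ i := hx
        omega
      · exact ⟨e, j, rfl⟩
    have adj : ∀ e j u, (sub n G).Adj (.inr (.inr (e, j))) u →
        ∃ b, G.Adj (.inr j) b ∧ φ e b = u := by
      rintro e j u (⟨e', a, b, hab, h1, h2⟩ | h1 | h1)
      · obtain ⟨rfl, rfl⟩ := φ_eq_inr h1
        exact ⟨b, hab, h2⟩
      · cases h1
      · cases h1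
    let W' : Bool ⊕ J n I → Finset (Bool ⊕ J n I) := fun x => match x with
      | .inl _ => ∅
      | .inr (.inl _) => ∅
      | .inr (.inr p) => (W (.inr p.2)).image (φ p.1)
    refine ⟨W', ?_, ?_, ?_, ?_, ?_, ?_⟩
    · intro v hv
      obtain ⟨e, j, rfl⟩ := low v hv
      exact Finset.card_image_le.trans (hW.card _ hv)
    · intro v u hv hvu hu
      obtain ⟨e, j, rfl⟩ := low v hv
      obtain ⟨b, hb, rfl⟩ := adj e j u hvu
      rw [hφ] at hu
      have hb2 : W b = W (.inr j) := hW.same _ _ hv hb hu
      rcases b with b | j'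
      · rw [hT] at hu
        omega
      · show (W (.inr j')).image (φ e) = (W (.inr j)).image (φ e)
        rw [hb2]
    · intro v u hv hvu hu
      obtain ⟨e, j, rfl⟩ := low v hv
      obtain ⟨b, hb, rfl⟩ := adj e j u hvu
      rw [hφ] at hu
      exact Finset.mem_image_of_mem _ (hW.up _ _ hv hb hu)
    · intro v hv
      obtain ⟨e, j, rfl⟩ := low v hv.le
      exact Finset.mem_image_of_mem (φ e) (hW.self (.inr j) hv)
    · intro v hv
      obtain ⟨e, j, rfl⟩ := low v hv
      obtain ⟨a, b, hab⟩ := hW.two _ hv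
      refine ⟨φ e a, φ e b, ?_⟩
      intro u hu hiu
      obtain ⟨u₀, hu₀, rfl⟩ := Finset.mem_image.1 hu
      rw [hφ] at hiu
      rcases hab u₀ hu₀ hiu with h | h
      · left; rw [h]
      · right; rw [h]
    · intro y hy
      obtain ⟨e, j, rfl⟩ := low y hy.le
      obtain ⟨ψ, h0, h1, h2⟩ := hW.dist (.inr j) hy
      let f : Bool ⊕ J n I → ℕ := fun x => match x with
        | .inl _ => 2 * i + 1
        | .inr (.inl _) => 2 * i + 1
        | .inr (.inr p) => if p.1 = e then ψ (.inr p.2) else 2 * i + 1
      refine ⟨f, ?_, ?_, ?_⟩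
      · show (if e = e then ψ (.inr j) else 2 * i + 1) = 0
        simp [h0]
      · intro y' hy' hne
        obtain ⟨e', j', rfl⟩ := low y' hy'.le
        show 2 * i + 1 ≤ if e' = e then ψ (.inr j') else 2 * i + 1
        split_ifs with he
        · apply h1 _ hy'
          intro hh
          apply hne
          have h5 : j' = j := Sum.inr.inj hh
          rw [he, h5]
        · exact le_rfl
      · intro u v hu hv huv
        obtain ⟨e', j', rfl⟩ := low u hu
        obtain ⟨b, hb, rfl⟩ := adj e' j' v huv
        rw [hφ] at hv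
        rcases b with b | j''
        · rw [hT] at hv
          omega
        · show (if e' = e then ψ (.inr j') else 2 * i + 1) ≤
            (if e' = e then ψ (.inr j'') else 2 * i + 1) + 1
          split_ifs
          · exact h2 _ _ hu hv hb
          · omega
  · -- the new level
    have him' : i = m := by omega
    subst him'
    obtain ⟨ψ, h0, h1, h2⟩ := hp
    let em : Bool ⊕ (Fin n ⊕ Fin n) → Bool ⊕ J n I := fun x => match x with
      | .inl b => .inl b
      | .inr w => .inr (.inl w)
    refine ⟨fun _ => Finset.univ.image em, ?_, ?_, ?_, ?_, ?_, ?_⟩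
    · intro v _
      refine Finset.card_image_le.trans ?_
      simp only [Finset.card_univ, Fintype.card_sum, Fintype.card_bool, Fintype.card_fin]
      omega
    · intro v u _ _ _
      rfl
    · intro v u _ _ hu
      rcases u with b | (w | ⟨e, j⟩)
      · exact Finset.mem_image_of_mem em (Finset.mem_univ (Sum.inl b))
      · exact Finset.mem_image_of_mem em (Finset.mem_univ (Sum.inr w))
      · have : i < lev (.inr j) := hu
        have := hI j
        omega
    · intro v hv
      rcases v with b | (w | ⟨e, j⟩)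
      · exact Finset.mem_image_of_mem em (Finset.mem_univ (Sum.inl b))
      · exact Finset.mem_image_of_mem em (Finset.mem_univ (Sum.inr w))
      · have : lev (.inr j) = i := hv
        have := hI j
        omega
    · intro v _
      refine ⟨.inl false, .inl true, ?_⟩
      intro u _ hiu
      rcases u with b | (w | ⟨e, j⟩)
      · cases b <;> simp
      · have : i < i := hiu
        omega
      · have : i < lev (.inr j) := hiu
        have := hI j
        omega
    · intro y hy
      obtain ⟨w₀, rfl⟩ : ∃ w, y = Sum.inr (Sum.inl w) := by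
        rcases y with b | (w | ⟨e, j⟩)
        · have : i + 1 = i := hy
          omega
        · exact ⟨w, rfl⟩
        · have : lev (.inr j) = i := hy
          have := hI j
          omega
      let f : Bool ⊕ J n I → ℕ := fun x => match x with
        | .inl _ => 0
        | .inr (.inl w) => if w = w₀ then 0 else 2 * i + 1
        | .inr (.inr p) => if Sum.inl p.1.1 = w₀ then ψ (.inr p.2) else
            if Sum.inr p.1.2 = w₀ then 2 * i + 1 - ψ (.inr p.2) else 2 * i + 1
      have hf : ∀ e u, f (φ e u) = if Sum.inl e.1 = w₀ then ψ u else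
            if Sum.inr e.2 = w₀ then 2 * i + 1 - ψ u else 2 * i + 1 := by
        intro e u
        rcases u with (_ | _) | j
        · show (if Sum.inl e.1 = w₀ then 0 else 2 * i + 1) = _
          split_ifs <;> simp_all
        · show (if Sum.inr e.2 = w₀ then 0 else 2 * i + 1) = _
          split_ifs with h3 h4
          · exact absurd (h4.trans h3.symm) (by simp)
          · simp [h1]
          · simp [h1]
          · rfl
        · rfl
      refine ⟨f, ?_, ?_, ?_⟩
      · show (if w₀ = w₀ then 0 else 2 * i + 1) = 0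
        simp
      · intro y' hy' hne
        obtain ⟨w, rfl⟩ : ∃ w, y' = Sum.inr (Sum.inl w) := by
          rcases y' with b | (w | ⟨e, j⟩)
          · have : i + 1 = i := hy'
            omega
          · exact ⟨w, rfl⟩
          · have : lev (.inr j) = i := hy'
            have := hI j
            omega
        show 2 * i + 1 ≤ if w = w₀ then 0 else 2 * i + 1
        rw [if_neg]
        rintro rfl
        exact hne rfl
      · intro u v hu hv huv
        rcases huv with ⟨e, a, b, hab, rfl, rfl⟩ | h3 | h3
        · rw [hf, hf]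
          have h3 := h2 a b hab
          have h4 := h2 b a hab.symm
          split_ifs <;> omega
        · have : i + 1 ≤ i := by
            cases h3
            · exact hu
            · exact hu
          omega
        · have : i + 1 ≤ i := by
            cases h3
            · exact hv
            · exact hv
          omega

lemma walk_reach {V : Type} {G : SimpleGraph V} {lev : V → ℕ} {i N L : ℕ} {W : V → Finset V}
    (h : Lvl G lev i N L W) {u v : V} (p : G.Walk u v) (hu : lev u ≤ i) :
    (∃ w ∈ p.support, i < lev w ∧ w ∈ W u) ∨ ((∀ w ∈ p.support, lev w ≤ i) ∧ W v = W u) := by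
  induction p with
  | nil =>
    right
    simpa using hu
  | @cons u u' v hadj p ih =>
    rcases Nat.lt_or_ge i (lev u') with h1 | h1
    · left
      exact ⟨u', by simp, h1, h.up _ _ hu hadj h1⟩
    · have h2 := h.same _ _ hu hadj h1
      rcases ih h1 with ⟨w, hw, h3, h4⟩ | ⟨h3, h4⟩
      · left
        exact ⟨w, by simp [hw], h3, h2 ▸ h4⟩
      · right
        refine ⟨?_, h4.trans h2⟩
        intro w hw
        rw [SimpleGraph.Walk.support_cons, List.mem_cons] at hw
        rcases hw with rfl | hw
        · exact hu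
        · exact h3 w hw

lemma lip_walk {V : Type} {G : SimpleGraph V} {lev : V → ℕ} {i : ℕ} {ψ : V → ℕ}
    (h : ∀ u v, lev u ≤ i → lev v ≤ i → G.Adj u v → ψ u ≤ ψ v + 1) {u v : V}
    (p : G.Walk u v) (hp : ∀ w ∈ p.support, lev w ≤ i) : ψ v ≤ ψ u + p.length := by
  induction p with
  | nil => simp
  | @cons u u' v hadj p ih =>
    have h1 : ∀ w ∈ p.support, lev w ≤ i := fun w hw => hp w (by simp [hw])
    have h2 := ih h1
    have h3 := h u' u (h1 _ (SimpleGraph.Walk.start_mem_support p)) (hp _ (by simp)) hadj.symm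
    rw [SimpleGraph.Walk.length_cons]
    omega

open Classical in
/-- The gadget has linear expansion. -/
theorem Hier.exp {I : Type} {G : SimpleGraph (Bool ⊕ I)} {m : ℕ} (h : Hier G m) (r : ℕ) :
    Exp G r (8 * r + 6) := by
  intro n H B x hB hr hH
  obtain ⟨lev, hT, hI, hL⟩ := h
  have hle : ∀ v, lev v ≤ m := by
    rintro (b | j)
    · exact (hT b).le
    · exact (hI j).le
  have hz : ∀ p, ∃ z ∈ B p, ∀ y ∈ B p, lev y ≤ lev z := by
    intro p
    have hne : (lev '' B p).Nonempty := ⟨_, _, (hr p).1, rfl⟩
    have hbd : BddAbove (lev '' B p) := by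
      refine ⟨m, ?_⟩
      rintro _ ⟨y, _, rfl⟩
      exact hle y
    obtain ⟨z, hz, hz'⟩ := Nat.sSup_mem hne hbd
    refine ⟨z, hz, ?_⟩
    intro y hy
    rw [hz']
    exact le_csSup hbd ⟨y, hy, rfl⟩
  choose z hzB hzm using hz
  have hw : ∀ p, ∀ y ∈ B p, ∀ y' ∈ B p, ∃ w : G.Walk y y', w.length ≤ 2 * r ∧
      ∀ v ∈ w.support, v ∈ B p := by
    intro p y hy y' hy'
    obtain ⟨w₁, l₁, s₁⟩ := (hr p).2 y hy
    obtain ⟨w₂, l₂, s₂⟩ := (hr p).2 y' hy'
    refine ⟨w₁.reverse.append w₂, ?_, ?_⟩
    · rw [SimpleGraph.Walk.length_append, SimpleGraph.Walk.length_reverse]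
      omega
    · intro v hv
      rw [SimpleGraph.Walk.mem_support_append_iff, SimpleGraph.Walk.support_reverse,
        List.mem_reverse] at hv
      rcases hv with hv | hv
      · exact s₁ v hv
      · exact s₂ v hv
  let S : Fin n → Finset (Fin n) := fun p =>
    Finset.univ.filter (fun q => H.Adj p q ∧ lev (z p) ≤ lev (z q))
  have inj : ∀ (T : Finset (Bool ⊕ I)) (p : Fin n),
      (∀ q ∈ S p, ∃ y ∈ T, y ∈ B q) → (S p).card ≤ T.card := by
    intro T p hTp
    let f : Fin n → Bool ⊕ I := fun q => if h : ∃ y ∈ T, y ∈ B q then h.choose else z p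
    have hf : ∀ q, (∃ y ∈ T, y ∈ B q) → f q ∈ T ∧ f q ∈ B q := by
      intro q hq
      simp only [f, hq, dif_pos]
      exact hq.choose_spec
    apply Finset.card_le_card_of_injOn f
    · intro q hq
      exact (hf q (hTp q hq)).1
    · intro q hq q' hq' he
      by_contra hne
      exact Set.disjoint_left.1 (hB q q' hne) (hf q (hTp q hq)).2
        (he ▸ (hf q' (hTp q' hq')).2)
  have hS : ∀ p, (S p).card ≤ 8 * r + 6 := by
    intro p
    rcases Nat.lt_or_ge (lev (z p)) m with hm | hm
    · obtain ⟨W, hW⟩ := hL _ hm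
      set i := lev (z p) with hi
      -- the main claim
      have key : ∀ q ∈ S p, (∃ y ∈ W (z p), i < lev y ∧ y ∈ B q) ∨
          (z q ∈ W (z p) ∧ lev (z q) = i ∧ i ≤ 2 * r) := by
        intro q hq
        obtain ⟨-, hpq, hlev⟩ := Finset.mem_filter.1 hq
        obtain ⟨a, ha, b, hb, hab⟩ := hH p q hpq
        obtain ⟨w₁, l₁, s₁⟩ := hw p (z p) (hzB p) a ha
        have e₁ : ∀ w ∈ w₁.support, lev w ≤ i := fun w hw => hzm p w (s₁ w hw)
        have c₁ : W a = W (z p) := by
          rcases walk_reach hW w₁ le_rfl with ⟨w, hw, h1, -⟩ | ⟨-, h1⟩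
          · exact absurd (e₁ w hw) (by omega)
          · exact h1
        have hai : lev a ≤ i := hzm p a ha
        rcases Nat.lt_or_ge i (lev b) with hbi | hbi
        · left
          exact ⟨b, c₁ ▸ hW.up _ _ hai hab hbi, hbi, hb⟩
        · have c₂ : W b = W (z p) := (hW.same _ _ hai hab hbi).trans c₁
          obtain ⟨w₂, l₂, s₂⟩ := hw q b hb (z q) (hzB q)
          rcases walk_reach hW w₂ hbi with ⟨w, hw, h1, h2⟩ | ⟨h1, h2⟩
          · left
            exact ⟨w, c₂ ▸ h2, h1, s₂ w hw⟩
          · right
            have h3 : lev (z q) = i := by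
              have := h1 (z q) (SimpleGraph.Walk.end_mem_support w₂)
              omega
            refine ⟨?_, h3, ?_⟩
            · rw [← c₂, ← h2]
              exact hW.self _ h3
            · by_contra hir
              obtain ⟨ψ, h0, hψ, hlip⟩ := hW.dist (z p) hi.symm
              have hne : z q ≠ z p := by
                intro hh
                exact Set.disjoint_left.1 (hB p q hpq.ne) (hzB p) (hh ▸ hzB q)
              have h4 := hψ _ h3 hne
              have h5 := lip_walk hlip w₁ e₁
              have h6 := lip_walk hlip w₂ h1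
              have h7 := hlip b a hbi hai hab.symm
              omega
      rcases Nat.lt_or_ge (2 * r) i with hri | hri
      · -- only the terminals
        obtain ⟨a, b, hab⟩ := hW.two (z p) le_rfl
        have h1 : (S p).card ≤ ({a, b} : Finset (Bool ⊕ I)).card := by
          apply inj
          intro q hq
          rcases key q hq with ⟨y, hy, hiy, hyq⟩ | ⟨-, -, h⟩
          · refine ⟨y, ?_, hyq⟩
            rcases hab y hy hiy with rfl | rfl <;> simp
          · omega
        have h2 : ({a, b} : Finset (Bool ⊕ I)).card ≤ 2 := Finset.card_le_two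
        omega
      · have h1 : (S p).card ≤ (W (z p)).card := by
          apply inj
          intro q hq
          rcases key q hq with ⟨y, hy, -, hyq⟩ | ⟨h, -, -⟩
          · exact ⟨y, hy, hyq⟩
          · exact ⟨z q, h, hzB q⟩
        have h2 := hW.card (z p) le_rfl
        omega
    · -- a branch set with a terminal
      have h1 : (S p).card ≤ ({Sum.inl false, Sum.inl true} : Finset (Bool ⊕ I)).card := by
        apply inj
        intro q hq
        obtain ⟨-, hpq, hlev⟩ := Finset.mem_filter.1 hq
        refine ⟨z q, ?_, hzB q⟩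
        rcases hq' : z q with b | j
        · cases b <;> simp
        · rw [hq'] at hlev
          have := hI j
          omega
      have h2 : ({Sum.inl false, Sum.inl true} : Finset (Bool ⊕ I)).card ≤ 2 :=
        Finset.card_le_two
      omega
  have hsub : H.edgeSet ⊆ ↑((Finset.univ : Finset (Fin n)).biUnion
      (fun p => (S p).image (fun q => s(p, q)))) := by
    intro e he
    induction e using Sym2.ind with
    | _ p q =>
    have hpq : H.Adj p q := he
    simp only [Finset.coe_biUnion, Set.mem_iUnion, Finset.mem_coe, Finset.mem_univ,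
      Finset.mem_image]
    rcases Nat.le_total (lev (z p)) (lev (z q)) with hl | hl
    · exact ⟨p, trivial, q, Finset.mem_filter.2 ⟨Finset.mem_univ _, hpq, hl⟩, rfl⟩
    · exact ⟨q, trivial, p, Finset.mem_filter.2 ⟨Finset.mem_univ _, hpq.symm, hl⟩, Sym2.eq_swap⟩
  calc H.edgeSet.ncard ≤ ((Finset.univ : Finset (Fin n)).biUnion
      (fun p => (S p).image (fun q => s(p, q)))).card := by
        have := Set.ncard_le_ncard hsub (Finset.finite_toSet _)
        rwa [Set.ncard_coe_finset] at this
    _ ≤ ∑ p : Fin n, ((S p).image (fun q => s(p, q))).card := Finset.card_biUnion_le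
    _ ≤ ∑ _p : Fin n, (8 * r + 6) :=
        Finset.sum_le_sum (fun p _ => Finset.card_image_le.trans (hS p))
    _ = (8 * r + 6) * n := by simp [mul_comm]

end LibPE82
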