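import Pool.Agent.LibPE82.Defs

/-! Row W1 (PE82): routes and colour words. Difficulty MEDIUM (an ADAPTATION). Helper lemmas private, names w1_...
PLAN. Copy and adapt the lemmas `D_bound`, `chain_copy`, `mem_newR`, `mem_cp`, `nodup_cp`, `routes_subst`, `no_pattern`, `cnt_subst` of
Pool/Agent/Results/MP_b63a31_co/SingleExpUnbounded.lean (in origin/main; helper64). The only differences: the copies are indexed by the pairs `(a, b)` only, the terminals
`s'`, `t'` are joined to `A`, `B` by single edges (`TE`), so a route is `vA a :: (cp (a, b) l ++ [vB b])` (`mk`), the length grows by 2, and the number of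
words is `≥ n * n * M / (2 n)` instead of `n * n * M ^ 3 / (2 n)` (`T := (univ : Finset (Fin n × Fin n)).sigma (fun p => We p)`, `g x = c (vA a) :: (w ++ [c (vB b)])`).
Since `φ e` is injective and maps edges to edges, a colouring of the new gadget restricts to one of each copy (`NR.comp` in that file). -/

set_option autoImplicit false

namespace LibPE82

private lemma w1_comp {V V' K : Type} {G : SimpleGraph V} {G' : SimpleGraph V'} {c : V' → K}
    (h : NR G' c) (φ : V → V') (hφ : Function.Injective φ)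
    (hadj : ∀ u v, G.Adj u v → G'.Adj (φ u) (φ v)) : NR G (c ∘ φ) := by
  intro l₁ l₂ hc hn h0 he
  apply h (l₁.map φ) (l₂.map φ)
  · rw [← List.map_append]
    exact List.isChain_map_of_isChain φ hadj hc
  · rw [← List.map_append]
    exact hn.map hφ
  · simpa using h0
  · simpa [List.map_map] using he

private lemma w1_D {n : ℕ} (D : Finset (Fin n × Fin n))
    (h : ∀ a₁ a₂ a₃ b₁ b₂, (a₁, b₁) ∈ D → (a₂, b₁) ∈ D → (a₂, b₂) ∈ D → (a₃, b₂) ∈ D →
      a₁ ≠ a₂ → a₂ ≠ a₃ → b₁ ≠ b₂ → False) : D.card ≤ 2 * n := by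
  classical
  have h12 := Finset.card_filter_add_card_filter_not (s := D)
    (fun p => ∀ a', (a', p.2) ∈ D → a' = p.1)
  have h1 : (D.filter (fun p => ∀ a', (a', p.2) ∈ D → a' = p.1)).card ≤ n := by
    have := Finset.card_le_card_of_injOn (s := D.filter (fun p => ∀ a', (a', p.2) ∈ D → a' = p.1))
      (t := (Finset.univ : Finset (Fin n))) Prod.snd (fun _ _ => Finset.mem_univ _) (by
        rintro ⟨a, b⟩ hp ⟨a', b'⟩ hq hpq
        simp only [Finset.coe_filter, Set.mem_ofPred_eq] at hp hq hpq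
        subst hpq
        have := hp.2 a' hq.1
        rw [this])
    simpa using this
  have h2 : (D.filter (fun p => ¬ ∀ a', (a', p.2) ∈ D → a' = p.1)).card ≤ n := by
    have := Finset.card_le_card_of_injOn
      (s := D.filter (fun p => ¬ ∀ a', (a', p.2) ∈ D → a' = p.1))
      (t := (Finset.univ : Finset (Fin n))) Prod.fst (fun _ _ => Finset.mem_univ _) (by
        rintro ⟨a, b⟩ hp ⟨a', b'⟩ hq hpq
        simp only [Finset.coe_filter, Set.mem_ofPred_eq, not_forall] at hp hq hpq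
        subst hpq
        obtain ⟨hp1, a₁, ha₁, ha₁'⟩ := hp
        obtain ⟨hq1, a₃, ha₃, ha₃'⟩ := hq
        by_contra hne
        exact h a₁ a a₃ b b' ha₁ hp1 hq1 ha₃ ha₁' (fun e => ha₃' e.symm)
          (fun e => hne (by rw [e])))
    simpa using this
  omega

private lemma w1_adj {I : Type} {n : ℕ} {G : SimpleGraph (Bool ⊕ I)} (e : E n) (u v : Bool ⊕ I)
    (h : G.Adj u v) : (sub n G).Adj (φ e u) (φ e v) := Or.inl ⟨e, u, v, h, rfl, rfl⟩

private lemma w1_chain {I : Type} {n : ℕ} {G : SimpleGraph (Bool ⊕ I)} {R : Finset (List I)}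
    {len : ℕ} (h : Routes G R len) (a b : Fin n) {l : List I} (hl : l ∈ R) :
    (Sum.inr (vA a) :: ((cp (a, b) l).map Sum.inr ++ [Sum.inr (vB b)])).IsChain
      (sub n G).Adj := by
  have h1 := h.chain l hl
  have h2 := List.isChain_map_of_isChain (S := (sub n G).Adj) (φ (a, b))
    (fun u v huv => w1_adj (a, b) u v huv) h1
  have h3 : List.map (φ (a, b)) (Sum.inl false :: (l.map Sum.inr ++ [Sum.inl true])) =
      Sum.inr (vA a) :: ((cp (a, b) l).map Sum.inr ++ [Sum.inr (vB b)]) := by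
    simp [cp, φ, vA, vB, Function.comp_def]
  rwa [h3] at h2

private lemma w1_mem_newR {I : Type} {n : ℕ} {R : Finset (List I)} {l : List (J n I)} :
    l ∈ newR n R ↔ ∃ a b, ∃ l₁ ∈ R, mk a b l₁ = l := by
  classical
  unfold newR
  simp only [Finset.mem_image, Finset.mem_product, Finset.mem_univ, true_and, Prod.exists]

private lemma w1_mem_cp {n : ℕ} {I : Type} {e : E n} {l : List I} {x : J n I} :
    x ∈ cp e l ↔ ∃ i ∈ l, Sum.inr (e, i) = x := by
  simp [cp]

private lemma w1_nodup_cp {n : ℕ} {I : Type} (e : E n) {l : List I} (h : l.Nodup) :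
    (cp e l).Nodup := by
  apply h.map
  intro a b hab
  simpa using hab

theorem routes_sub {I : Type} {n : ℕ} {G : SimpleGraph (Bool ⊕ I)} {R : Finset (List I)} {len : ℕ}
    (h : Routes G R len) : Routes (sub n G) (newR n R) (len + 2) := by
  refine ⟨?_, ?_, ?_⟩
  · intro l hl
    obtain ⟨a, b, l₁, h1, rfl⟩ := w1_mem_newR.1 hl
    have c1 := w1_chain h a b h1
    have : (Sum.inl false :: ((mk a b l₁).map Sum.inr ++ [Sum.inl true]) :
        List (Bool ⊕ J n I)) =
        Sum.inl false :: Sum.inr (vA a) :: ((cp (a, b) l₁).map Sum.inr ++ Sum.inr (vB b) ::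
            [Sum.inl true]) := by
      simp [mk]
    rw [this, List.isChain_cons_cons]
    refine ⟨Or.inr (Or.inl (TE.s a)), ?_⟩
    rw [List.isChain_cons_split]
    refine ⟨c1, ?_⟩
    rw [List.isChain_cons_cons]
    exact ⟨Or.inr (Or.inr (TE.t b)), List.isChain_singleton _⟩
  · intro l hl
    obtain ⟨a, b, l₁, h1, rfl⟩ := w1_mem_newR.1 hl
    have n1 := w1_nodup_cp (a, b) (h.nodup _ h1)
    unfold mk
    simp only [List.nodup_append, List.nodup_cons, n1, List.mem_append, List.mem_cons,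
      w1_mem_cp]
    simp [vA, vB]
  · intro l hl
    obtain ⟨a, b, l₁, h1, rfl⟩ := w1_mem_newR.1 hl
    have n1 := h.length _ h1
    simp only [mk, cp, List.length_append, List.length_cons, List.length_map, List.length_nil]
    omega

/-- The forbidden pattern of four base edges with a common colour word. -/
private lemma w1_no_pattern {I K : Type} {n : ℕ} {G : SimpleGraph (Bool ⊕ I)}
    {R : Finset (List I)} {len : ℕ}
    (h : Routes G R len) (c : Bool ⊕ J n I → K) (hc : NR (sub n G) c)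
    (w : List K) (α β : K) (a₁ a₂ a₃ b₁ b₂ : Fin n)
    (l₁ l₂ l₃ l₄ : List I) (h1 : l₁ ∈ R) (h2 : l₂ ∈ R) (h3 : l₃ ∈ R) (h4 : l₄ ∈ R)
    (w1 : (cp (a₁, b₁) l₁).map (fun i => c (Sum.inr i)) = w)
    (w2 : (cp (a₂, b₁) l₂).map (fun i => c (Sum.inr i)) = w)
    (w3 : (cp (a₂, b₂) l₃).map (fun i => c (Sum.inr i)) = w)
    (w4 : (cp (a₃, b₂) l₄).map (fun i => c (Sum.inr i)) = w)
    (ca₁ : c (Sum.inr (vA a₁)) = α) (ca₂ : c (Sum.inr (vA a₂)) = α)
    (cb₁ : c (Sum.inr (vB b₁)) = β) (cb₂ : c (Sum.inr (vB b₂)) = β)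
    (n12 : a₁ ≠ a₂) (n23 : a₂ ≠ a₃) (nb : b₁ ≠ b₂) : False := by
  have c1 := w1_chain h a₁ b₁ h1
  have c2 := w1_chain h a₂ b₁ h2
  have c3 := w1_chain h a₂ b₂ h3
  have c4 := w1_chain h a₃ b₂ h4
  have r2 : (Sum.inr (vB b₁) :: (((cp (a₂, b₁) l₂).reverse).map Sum.inr ++
      [Sum.inr (vA a₂)])).IsChain (sub n G).Adj := by
    have := (List.isChain_reverse (R := (sub n G).Adj)
      (l := (Sum.inr (vA a₂) :: ((cp (a₂, b₁) l₂).map Sum.inr ++
        [Sum.inr (vB b₁)])))).2 (c2.imp (fun _ _ h => h.symm))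
    simpa using this
  have r4 : (Sum.inr (vB b₂) :: (((cp (a₃, b₂) l₄).reverse).map Sum.inr ++
      [Sum.inr (vA a₃)])).IsChain (sub n G).Adj := by
    have := (List.isChain_reverse (R := (sub n G).Adj)
      (l := (Sum.inr (vA a₃) :: ((cp (a₃, b₂) l₄).map Sum.inr ++
        [Sum.inr (vB b₂)])))).2 (c4.imp (fun _ _ h => h.symm))
    simpa using this
  have m1 := w1_nodup_cp (a₁, b₁) (h.nodup _ h1)
  have m2 := w1_nodup_cp (a₂, b₁) (h.nodup _ h2)
  have m3 := w1_nodup_cp (a₂, b₂) (h.nodup _ h3)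
  have m4 := w1_nodup_cp (a₃, b₂) (h.nodup _ h4)
  let P₁ : List (J n I) := vA a₁ :: (cp (a₁, b₁) l₁ ++ vB b₁ :: (cp (a₂, b₁) l₂).reverse)
  let P₂ : List (J n I) := vA a₂ :: (cp (a₂, b₂) l₃ ++ vB b₂ :: (cp (a₃, b₂) l₄).reverse)
  refine hc (P₁.map Sum.inr) (P₂.map Sum.inr) ?_ ?_ ?_ ?_
  · have : (P₁.map Sum.inr ++ P₂.map Sum.inr : List (Bool ⊕ J n I)) =
        Sum.inr (vA a₁) :: ((cp (a₁, b₁) l₁).map Sum.inr ++ Sum.inr (vB b₁) ::
          (((cp (a₂, b₁) l₂).reverse).map Sum.inr ++ Sum.inr (vA a₂) ::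
            ((cp (a₂, b₂) l₃).map Sum.inr ++ Sum.inr (vB b₂) ::
              ((cp (a₃, b₂) l₄).reverse).map Sum.inr))) := by
      simp [P₁, P₂]
    rw [this, List.isChain_cons_split]
    refine ⟨c1, ?_⟩
    rw [List.isChain_cons_split]
    refine ⟨r2, ?_⟩
    rw [List.isChain_cons_split]
    refine ⟨c3, ?_⟩
    exact List.IsChain.left_of_append (l₂ := [Sum.inr (vA a₃)]) (by simpa using r4)
  · rw [← List.map_append]
    apply List.Nodup.map Sum.inr_injective
    simp only [P₁, P₂, List.cons_append, List.append_assoc, List.nodup_append, List.nodup_cons,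
      List.nodup_reverse, m1, m2, m3, m4, List.mem_append, List.mem_cons, List.mem_reverse,
      w1_mem_cp]
    simp only [vA, vB]
    simp [n12, n23, nb]
    refine ⟨?_, ?_⟩
    · rintro x - a b y (⟨-, h5, h6⟩ | ⟨-, h5, h6⟩) h7 h8
      · exact absurd (h8.trans h6.symm) nb
      · exact absurd (h8.trans h6.symm) nb
    · rintro x - a b y (⟨-, h5, h6⟩ | ⟨-, h5, h6⟩ | ⟨-, h5, h6⟩) h7 h8
      · exact absurd (h7.trans h5.symm) n12
      · exact absurd (h8.trans h6.symm) nb
      · exact absurd (h8.trans h6.symm) nb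
  · simp [P₁]
  · simp only [P₁, P₂, List.map_cons, List.map_append, List.map_reverse, List.map_map]
    simp only [Function.comp_def, w1, w2, w3, w4, ca₁, ca₂, cb₁, cb₂]

open Classical in
private lemma w1_cnt {I : Type} {n : ℕ} {G : SimpleGraph (Bool ⊕ I)} {R : Finset (List I)}
    {len M M' : ℕ} (h : Routes G R len) (hM : Cnt G R M) (hn : 0 < n)
    (hM' : 2 * M' ≤ n * M) : Cnt (sub n G) (newR n R) M' := by
  intro K c hc
  set W' : Finset (List K) := (newR n R).image (fun l => l.map (fun i => c (Sum.inr i))) with hW'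
  -- colour words of the copy e
  let We : E n → Finset (List K) := fun e =>
    R.image (fun l => (cp e l).map (fun i => c (Sum.inr i)))
  have hWe : ∀ e, M ≤ (We e).card := by
    intro e
    have h1 := hM K (c ∘ φ e) (w1_comp hc (φ e) (φ_inj e) (fun u v huv => w1_adj e u v huv))
    have h2 : (R.image (fun l => l.map (fun i => (c ∘ φ e) (Sum.inr i)))) = We e := by
      apply Finset.image_congr
      intro l _
      simp [cp, φ]
    rwa [h2] at h1
  have hlen : ∀ e w, w ∈ We e → w.length + 1 = len := by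
    intro e w hw
    obtain ⟨l, hl, rfl⟩ := Finset.mem_image.1 hw
    have := h.length l hl
    simpa [cp] using this
  let T : Finset (Σ _ : Fin n × Fin n, List K) :=
    (Finset.univ : Finset (Fin n × Fin n)).sigma (fun p => We p)
  let g : (Σ _ : Fin n × Fin n, List K) → List K := fun x =>
    c (Sum.inr (vA x.1.1)) :: (x.2 ++ [c (Sum.inr (vB x.1.2))])
  have hT : n * n * M ≤ T.card := by
    rw [Finset.card_sigma]
    calc n * n * M = ∑ _p : Fin n × Fin n, M := by
          simp [Finset.sum_const, Finset.card_univ, Fintype.card_prod, Fintype.card_fin]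
      _ ≤ _ := by
          apply Finset.sum_le_sum
          intro p _
          exact hWe _
  have hgT : T.image g ⊆ W' := by
    intro w hw
    obtain ⟨⟨⟨a, b⟩, w1⟩, hx, rfl⟩ := Finset.mem_image.1 hw
    simp only [T, Finset.mem_sigma, Finset.mem_univ, true_and] at hx
    obtain ⟨l₁, h1, rfl⟩ := Finset.mem_image.1 hx
    rw [hW']
    refine Finset.mem_image.2 ⟨mk a b l₁, w1_mem_newR.2 ⟨a, b, l₁, h1, rfl⟩, ?_⟩
    simp [mk, g]
  have hfib : ∀ w ∈ T.image g, (T.filter (fun x => g x = w)).card ≤ 2 * n := by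
    intro w _
    -- two elements of the fibre agree in all words and colours
    have key : ∀ x ∈ T, ∀ y ∈ T, g x = g y → x.2 = y.2 ∧
        c (Sum.inr (vA x.1.1)) = c (Sum.inr (vA y.1.1)) ∧
        c (Sum.inr (vB x.1.2)) = c (Sum.inr (vB y.1.2)) := by
      rintro ⟨⟨a, b⟩, w1⟩ hx ⟨⟨a', b'⟩, w1'⟩ hy hxy
      simp only [T, Finset.mem_sigma, Finset.mem_univ, true_and] at hx hy
      have e1 := hlen _ _ hx
      have e1' := hlen _ _ hy
      simp only [g] at hxy
      rw [List.cons.injEq] at hxy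
      obtain ⟨h1, h2⟩ := List.append_inj hxy.2 (by omega)
      rw [List.cons.injEq] at h2
      exact ⟨h1, hxy.1, h2.1⟩
    set F := T.filter (fun x => g x = w) with hF
    have hFmem : ∀ x ∈ F, x ∈ T ∧ g x = w := fun x hx => Finset.mem_filter.1 hx
    have hcard : F.card = (F.image Sigma.fst).card := by
      rw [Finset.card_image_of_injOn]
      rintro ⟨p, x⟩ hx ⟨q, y⟩ hy hpq
      have hx' := hFmem _ hx
      have hy' := hFmem _ hy
      have := (key _ hx'.1 _ hy'.1 (hx'.2.trans hy'.2.symm)).1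
      simp only at hpq this
      rw [hpq, this]
    rw [hcard]
    apply w1_D
    intro a₁ a₂ a₃ b₁ b₂ h11 h21 h22 h32 n12 n23 nb
    obtain ⟨⟨p₁, x₁⟩, hx₁, e₁⟩ := Finset.mem_image.1 h11
    obtain ⟨⟨p₂, x₂⟩, hx₂, e₂⟩ := Finset.mem_image.1 h21
    obtain ⟨⟨p₃, x₃⟩, hx₃, e₃⟩ := Finset.mem_image.1 h22
    obtain ⟨⟨p₄, x₄⟩, hx₄, e₄⟩ := Finset.mem_image.1 h32
    simp only at e₁ e₂ e₃ e₄
    subst e₁ e₂ e₃ e₄
    have f₁ := hFmem _ hx₁
    have f₂ := hFmem _ hx₂
    have f₃ := hFmem _ hx₃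
    have f₄ := hFmem _ hx₄
    have k₂ := key _ f₂.1 _ f₁.1 (f₂.2.trans f₁.2.symm)
    have k₃ := key _ f₃.1 _ f₁.1 (f₃.2.trans f₁.2.symm)
    have k₄ := key _ f₄.1 _ f₁.1 (f₄.2.trans f₁.2.symm)
    have t₁ := f₁.1
    have t₂ := f₂.1
    have t₃ := f₃.1
    have t₄ := f₄.1
    simp only [T, Finset.mem_sigma, Finset.mem_univ, true_and] at t₁ t₂ t₃ t₄
    simp only at k₂ k₃ k₄
    obtain ⟨l₁, r₁, s₁⟩ := Finset.mem_image.1 t₁
    obtain ⟨l₂, r₂, s₂⟩ := Finset.mem_image.1 t₂
    obtain ⟨l₃, r₃, s₃⟩ := Finset.mem_image.1 t₃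
    obtain ⟨l₄, r₄, s₄⟩ := Finset.mem_image.1 t₄
    refine w1_no_pattern h c hc x₁ _ _ a₁ a₂ a₃ b₁ b₂ l₁ l₂ l₃ l₄ r₁ r₂ r₃ r₄ s₁ ?_ ?_ ?_
      rfl k₂.2.1 rfl k₃.2.2 n12 n23 nb
    · rw [s₂, k₂.1]
    · rw [s₃, k₃.1]
    · rw [s₄, k₄.1]
  have h1 := Finset.card_le_mul_card_image T (2 * n) hfib
  have h2 := Finset.card_le_card hgT
  have h3 : n * n * M ≤ 2 * n * W'.card := hT.trans (h1.trans (Nat.mul_le_mul_left _ h2))
  have h4 : n * (n * M) ≤ n * (2 * W'.card) := by
    calc n * (n * M) = n * n * M := by ring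
      _ ≤ 2 * n * W'.card := h3
      _ = n * (2 * W'.card) := by ring
  have h5 := Nat.le_of_mul_le_mul_left h4 hn
  omega

theorem cnt_sub {I : Type} {n : ℕ} {G : SimpleGraph (Bool ⊕ I)} {R : Finset (List I)}
    {len M M' : ℕ} (h : Routes G R len) (hM : Cnt G R M) (hn : 0 < n)
    (hM' : 2 * M' ≤ n * M) : Cnt (sub n G) (newR n R) M' :=
  w1_cnt h hM hn hM'

end LibPE82
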