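import Pool.Agent.LibPE82.Defs
import Pool.Agent.LibPE82.W1
import Pool.Agent.LibPE82.Exp64

set_option autoImplicit false

/-!
# Linear expansion does not bound the nonrepetitive chromatic number: assembly
-/

namespace LibPE82

structure IsGadget (j : ℕ) (I : Type) [Fintype I] (G : SimpleGraph (Bool ⊕ I))
    (R : Finset (List I)) : Prop where
  routes : Routes G R (2 * j + 1)
  cnt : Cnt G R (Nat.factorial j)
  pos : Pos G (2 * j + 1)
  hier : Hier G j

theorem exists_gadget (j : ℕ) : ∃ (I : Type) (_ : Fintype I) (G : SimpleGraph (Bool ⊕ I))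
    (R : Finset (List I)), IsGadget j I G R := by
  classical
  induction j with
  | zero =>
    refine ⟨Empty, inferInstance, ⊤, {[]}, ?_, ?_, pos_zero, hier_zero⟩
    · refine ⟨?_, ?_, ?_⟩
      · intro l hl
        rw [Finset.mem_singleton] at hl
        subst hl
        simp
      · intro l hl
        rw [Finset.mem_singleton] at hl
        subst hl
        simp
      · intro l hl
        rw [Finset.mem_singleton] at hl
        subst hl
        simp
    · intro K c _
      simp
  | succ j ih =>
    obtain ⟨I, hI, G, R, hG⟩ := ih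
    refine ⟨J (2 * (j + 1)) I, inferInstance, sub (2 * (j + 1)) G, newR (2 * (j + 1)) R,
      ?_, ?_, ?_, ?_⟩
    · exact routes_sub hG.routes
    · apply cnt_sub hG.routes hG.cnt (by omega)
      rw [Nat.factorial_succ, mul_assoc]
    · exact pos_sub _ hG.pos
    · exact hier_sub le_rfl hG.hier hG.pos

lemma exists_walk {V : Type} {G : SimpleGraph V} : ∀ l : List V, l ≠ [] → l.IsChain G.Adj →
    ∃ (u v : V) (p : G.Walk u v), p.support = l
  | [], h, _ => absurd rfl h
  | [a], _, _ => ⟨a, a, SimpleGraph.Walk.nil, rfl⟩
  | a :: b :: l, _, h => by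
    rw [List.isChain_cons_cons] at h
    obtain ⟨u, v, p, hp⟩ := exists_walk (b :: l) (by simp) h.2
    have hub : u = b := by
      have := SimpleGraph.Walk.cons_tail_support p
      rw [hp] at this
      exact (List.cons.inj this).1
    subst hub
    exact ⟨a, v, SimpleGraph.Walk.cons h.1 p, by rw [SimpleGraph.Walk.support_cons, hp]⟩

/-- For every `k` there is a finite graph with `∇_r ≤ 8 r + 6` for all `r` (linear expansion) which
has no nonrepetitive colouring with `k` colours. -/
theorem linear_unbounded (k : ℕ) : ∃ (V : Type) (_ : Fintype V) (G : SimpleGraph V),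
    (∀ r, Exp G r (8 * r + 6)) ∧
    ¬ ∃ f : V → Fin k, ∀ (u v : V) (p : G.Walk u v), p.IsPath →
      ∀ t : ℕ, p.support.length = 2 * t →
        (p.support.take t).map f ≠ (p.support.drop t).map f := by
  classical
  obtain ⟨j, hj⟩ := (Nat.eventually_pow_lt_factorial_sub (k ^ 2) 0).exists
  obtain ⟨I, hI, G, R, hG⟩ := exists_gadget j
  refine ⟨Bool ⊕ I, inferInstance, G, fun r => hG.hier.exp r, ?_⟩
  rintro ⟨f, hf⟩
  have hNR : NR G f := by
    intro l₁ l₂ hc hn h0 he
    obtain ⟨u, v, p, hp⟩ := exists_walk (l₁ ++ l₂) (by simp [h0]) hc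
    have hlen : l₁.length = l₂.length := by
      have := congrArg List.length he
      simpa using this
    have h1 := hf u v p (by rw [SimpleGraph.Walk.isPath_def, hp]; exact hn) l₁.length
      (by rw [hp, List.length_append]; omega)
    apply h1
    rw [hp, List.take_left, List.drop_left]
    exact he
  have h1 := hG.cnt (Fin k) f hNR
  have h2 : Nat.factorial j ≤ k ^ (2 * j) := by
    refine h1.trans ?_
    refine (Finset.card_le_card (t := (Finset.univ :
      Finset (List.Vector (Fin k) (2 * j))).image List.Vector.toList) ?_).trans ?_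
    · intro w hw
      simp only [Finset.mem_image] at hw ⊢
      obtain ⟨l, hl, rfl⟩ := hw
      have := hG.routes.length l hl
      refine ⟨⟨l.map (fun i => f (Sum.inr i)), ?_⟩, Finset.mem_univ _, rfl⟩
      rw [List.length_map]
      omega
    · refine Finset.card_image_le.trans ?_
      rw [Finset.card_univ, card_vector, Fintype.card_fin]
  rw [Nat.sub_zero, ← pow_mul] at hj
  omega

end LibPE82
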